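import Mathlib
import Pool.Agent.V1191.ELP.SeqOne
import Pool.Agent.V1191.ELP.ContDec

/-!
# MP_32ff52_an, Q1: projections of `Lip_0(X)` onto the dual space commuting with the isometries

Among the spaces `ℓ_p` and `L_p[0,1]` with `1 ≤ p < ∞`, exactly `ℓ_1` has the equivariant dual
lifting property for the group of all surjective linear isometries.
-/

set_option autoImplicit false

open MeasureTheory
open scoped ENNReal NNReal

namespace Pool.Agent.Results.MP_32ff52_an.EquivariantLifting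

section defs

variable {X : Type*} [NormedAddCommGroup X] [NormedSpace ℝ X]

/-- `f` belongs to `Lip_0(X)` -/
def InLip (f : X → ℝ) : Prop := f 0 = 0 ∧ ∃ K : ℝ≥0, LipschitzWith K f

/-- `f` is a continuous linear functional -/
def InDual (f : X → ℝ) : Prop := ∃ φ : X →L[ℝ] ℝ, ∀ x, f x = φ x

/-- `P` restricts to a bounded linear projection of `Lip_0(X)` onto the dual space of `X`
(the values of `P` at functions outside of `Lip_0(X)` do not matter) -/
structure IsDualProjection (P : (X → ℝ) → (X → ℝ)) : Prop where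
  dual : ∀ f, InLip f → InDual (P f)
  add : ∀ f g, InLip f → InLip g → ∀ x, P (fun y => f y + g y) x = P f x + P g x
  smul : ∀ (c : ℝ) (f : X → ℝ), InLip f → ∀ x, P (fun y => c * f y) x = c * P f x
  bounded : ∃ C : ℝ, ∀ (K : ℝ≥0) (f : X → ℝ), f 0 = 0 → LipschitzWith K f →
    ∀ x, |P f x| ≤ C * K * ‖x‖
  proj : ∀ f : X → ℝ, InDual f → ∀ x, P f x = f x

/-- there is a bounded linear projection of `Lip_0(X)` onto the dual space of `X` which commutes
with the composition by every map in `G` -/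
def HasEquivariantProjection (G : Set (X → X)) : Prop :=
  ∃ P : (X → ℝ) → (X → ℝ), IsDualProjection P ∧
    ∀ g ∈ G, ∀ f, InLip f → ∀ x, P (fun y => f (g y)) x = P f (g x)

variable (X) in
/-- the surjective linear isometries of `X` -/
def Isom : Set (X → X) := {g | ∃ s : X ≃ₗᵢ[ℝ] X, ∀ x, g x = s x}

end defs

/-- the sequence space `ℓ_p` has the equivariant dual lifting property for the group of all
surjective linear isometries -/
def EllHas (p : ℝ≥0∞) [Fact (1 ≤ p)] : Prop :=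
  HasEquivariantProjection (Isom (lp (fun _ : ℕ => ℝ) p))

/-- the function space `L_p[0,1]` has the equivariant dual lifting property for the group of all
surjective linear isometries -/
def LebHas (p : ℝ≥0∞) [Fact (1 ≤ p)] : Prop :=
  HasEquivariantProjection (Isom (Lp ℝ p (volume.restrict (Set.Icc (0 : ℝ) 1))))

/-- the permutations of the coordinates of `ℓ_p` -/
def Perms (p : ℝ≥0∞) : Set (lp (fun _ : ℕ => ℝ) p → lp (fun _ : ℕ => ℝ) p) :=
  {g | ∃ σ : Equiv.Perm ℕ, ∀ (y : lp (fun _ : ℕ => ℝ) p) (n : ℕ),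
    (g y : ℕ → ℝ) n = (y : ℕ → ℝ) (σ n)}

/-- there is a bounded linear projection of `Lip_0(ℓ_p)` onto the dual space which commutes with
the permutations of the coordinates -/
def EllPermHas (p : ℝ≥0∞) [Fact (1 ≤ p)] : Prop := HasEquivariantProjection (Perms p)

section bridge

open Pool.Agent.V1191.ELP

variable {X : Type*} [NormedAddCommGroup X] [NormedSpace ℝ X]

theorem bridge {G : Set (X → X)} (h : HasEquivariantProjection G) :
    ∃ P : Lip0 X →ₗ[ℝ] (X →L[ℝ] ℝ), IsEquivariantProjection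
      {s : X ≃ₗᵢ[ℝ] X | (fun x => s x) ∈ G} P := by
  obtain ⟨P, hP, hG⟩ := h
  have hin : ∀ f : Lip0 X, InLip (f : X → ℝ) := fun f => f.2
  choose ψ hψ using fun f : Lip0 X => hP.dual _ (hin f)
  let Q : Lip0 X →ₗ[ℝ] (X →L[ℝ] ℝ) :=
    { toFun := ψ
      map_add' := fun f g => by
        ext x
        rw [add_apply, ← hψ, ← hψ, ← hψ]
        exact hP.add _ _ (hin f) (hin g) x
      map_smul' := fun c f => by
        ext x
        rw [RingHom.id_apply, smul_apply, ← hψ, ← hψ]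
        exact hP.smul c _ (hin f) x }
  refine ⟨Q, ⟨?_, ?_, ?_⟩⟩
  · obtain ⟨C, hC⟩ := hP.bounded
    refine ⟨|C|, fun f K hK => ?_⟩
    refine ContinuousLinearMap.opNorm_le_bound _ (by positivity) fun x => ?_
    show ‖ψ f x‖ ≤ _
    rw [← hψ, Real.norm_eq_abs]
    refine (hC K f f.2.1 hK x).trans ?_
    gcongr
    exact le_abs_self C
  · intro φ f hf
    ext x
    show ψ f x = _
    rw [← hψ, ← hf]
    exact hP.proj _ ⟨φ, hf⟩ x
  · intro s hs f h hfh x
    show ψ h x = ψ f (s x)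
    rw [← hψ, ← hψ]
    have e : (h : X → ℝ) = fun y => (f : X → ℝ) (s y) := funext hfh
    rw [e]
    exact hG _ hs _ (hin f) x

theorem bridge_iff : HasEquivariantProjection (Isom X) ↔ HasEquivariantDualLifting X := by
  classical
  constructor
  · intro h
    obtain ⟨P, hP⟩ := bridge h
    exact ⟨P, hP.bounded, hP.proj, fun g _ => hP.equivariant g ⟨g, fun x => rfl⟩⟩
  · rintro ⟨P, hP⟩
    let Q : (X → ℝ) → (X → ℝ) := fun f => if h : f ∈ Lip0 X then fun x => P ⟨f, h⟩ x else 0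
    have hQ : ∀ f (h : f ∈ Lip0 X), Q f = fun x => P ⟨f, h⟩ x := fun f h => dif_pos h
    refine ⟨Q, ⟨?_, ?_, ?_, ?_, ?_⟩, ?_⟩
    · intro f hf
      rw [hQ f hf]
      exact ⟨P ⟨f, hf⟩, fun x => rfl⟩
    · intro f g hf hg x
      have h1 : (fun y => f y + g y) ∈ Lip0 X := (Lip0 X).add_mem hf hg
      rw [hQ f hf, hQ g hg, hQ _ h1]
      have : (⟨fun y => f y + g y, h1⟩ : Lip0 X) = ⟨f, hf⟩ + ⟨g, hg⟩ := rfl
      rw [this, map_add]
      rfl
    · intro c f hf x
      have h1 : (fun y => c * f y) ∈ Lip0 X := (Lip0 X).smul_mem c hf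
      rw [hQ f hf, hQ _ h1]
      have : (⟨fun y => c * f y, h1⟩ : Lip0 X) = c • ⟨f, hf⟩ := rfl
      rw [this, map_smul]
      rfl
    · obtain ⟨C, hC⟩ := hP.bounded
      refine ⟨C, fun K f h0 hK x => ?_⟩
      rw [hQ f ⟨h0, K, hK⟩, ← Real.norm_eq_abs]
      exact ContinuousLinearMap.le_of_opNorm_le _ (hC ⟨f, ⟨h0, K, hK⟩⟩ K hK) x
    · rintro f ⟨φ, hφ⟩ x
      have h1 : f ∈ Lip0 X := by
        refine ⟨by rw [hφ, map_zero], ‖φ‖₊, ?_⟩
        have : f = fun x => φ x := funext hφ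
        rw [this]
        exact φ.lipschitz
      rw [hQ f h1, hφ]
      show P ⟨f, h1⟩ x = φ x
      rw [hP.proj φ ⟨f, h1⟩ hφ]
    · rintro g ⟨s, hs⟩ f hf x
      obtain ⟨h0, K, hK⟩ := hf
      have e : g = fun x => s x := funext hs
      have h1 : (fun y => f (g y)) ∈ Lip0 X := by
        refine ⟨?_, K * 1, hK.comp ?_⟩
        · show f (g 0) = 0
          rw [hs, map_zero, h0]
        · rw [e]
          exact s.lipschitz
      rw [hQ f ⟨h0, K, hK⟩, hQ _ h1]
      show P ⟨fun y => f (g y), h1⟩ x = P ⟨f, ⟨h0, K, hK⟩⟩ (g x)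
      rw [hs x]
      exact hP.equivariant s (Set.mem_univ s) ⟨f, ⟨h0, K, hK⟩⟩ ⟨fun y => f (g y), h1⟩
        (fun y => by
          show f (g y) = f (s y)
          rw [hs]) x

end bridge

theorem result :
    (∀ (p : ℝ≥0∞) [Fact (1 ≤ p)], p ≠ ∞ → (EllHas p ↔ p = 1)) ∧
    (∀ (p : ℝ≥0∞) [Fact (1 ≤ p)], p ≠ ∞ → ¬ LebHas p) ∧
    (∀ (p : ℝ≥0∞) [Fact (1 ≤ p)], 1 < p → p ≠ ∞ → ¬ EllPermHas p) := by
  open Pool.Agent.V1191.ELP in
  refine ⟨fun p _ hp => ⟨fun h => ?_, fun h => ?_⟩,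
    fun p _ hp h => Lp_not p hp (bridge_iff.1 h), fun p _ hp1 hp h => ?_⟩
  · by_contra hne
    have h1 : (1 : ℝ≥0∞) < p := lt_of_le_of_ne Fact.out (Ne.symm hne)
    exact seq_not h1 hp (bridge_iff.1 h)
  · subst h
    exact bridge_iff.2 seq_one
  · obtain ⟨P, hP⟩ := bridge h
    refine seq_no_proj hp1 hp ⟨P, hP.bounded, hP.proj, fun s hs => hP.equivariant s ?_⟩
    obtain ⟨σ, hσ⟩ := hs
    exact ⟨σ, fun y n => hσ y n⟩

end Pool.Agent.Results.MP_32ff52_an.EquivariantLifting
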